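import Pool.Agent.H25.DTO.Weight
import Pool.Agent.H76.DTO.SharpUpper

/-!
Soundness of the gap instances with the spans of the supports, and the gap.
-/

namespace Pool.Agent.H25.DTO

open Finset Module Pool.Agent.H76.DTO
open scoped Classical

noncomputable section

set_option linter.unusedSectionVars false

variable {F G : Type} [Field F] [Fintype F] [AddCommGroup G] [Module F G] [Fintype G] {n : ℕ}
variable (P : Frame F G n)

/-- Every class of functions modulo functionals has exactly one shifted label. -/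
lemma sum_shift_cnt (T : (Fin n → F) → Dual F G) (g : Fin n → F) :
    ∑ A : Dual F G, P.cnt T (g + P.ev A) ≤ (Fintype.card G : ℝ) := by
  have h1 : ∑ A : Dual F G, P.cnt T (g + P.ev A) =
      ((Finset.univ.filter (fun p : Dual F G × (Fin n → F) =>
        P.lab T p.2 = g + P.ev p.1)).card : ℝ) := by
    rw [Finset.card_filter, Fintype.sum_prod_type]
    push_cast
    rfl
  rw [h1, ← card_dual (F := F) (G := G)]
  have h2 : (Finset.univ.filter (fun p : Dual F G × (Fin n → F) =>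
        P.lab T p.2 = g + P.ev p.1)).card ≤ (Finset.univ : Finset (Dual F G)).card := by
    refine Finset.card_le_card_of_injOn (fun p => p.1 - T p.2) (fun _ _ => Finset.mem_univ _) ?_
    rintro ⟨A, f⟩ hp ⟨A', f'⟩ hp' h
    have e1 : P.lab T f = g + P.ev A := (Finset.mem_filter.1 hp).2
    have e2 : P.lab T f' = g + P.ev A' := (Finset.mem_filter.1 hp').2
    simp only at h
    rw [Frame.lab] at e1 e2
    have e3 : f = g + P.ev (A - T f) := by
      rw [map_sub, ← add_sub_assoc, ← e1]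
      abel
    have e4 : f' = g + P.ev (A' - T f') := by
      rw [map_sub, ← add_sub_assoc, ← e2]
      abel
    have e5 : f = f' := by rw [e3, e4, h]
    subst e5
    have e6 : A = A' := sub_left_injective h
    rw [e6]
  rw [Finset.card_univ] at h2
  exact_mod_cast h2

/-- Soundness with a general weight. -/
lemma sound_w (ψ : AddChar F ℂ) (hψ : ψ.IsPrimitive) (T : (Fin n → F) → Dual F G)
    (L C : ℝ) (hL0 : 0 < L) (hL : ∀ S : NZ F G, (Fintype.card (P.LL S.1) : ℝ) = L)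
    (hC : ∀ S : NZ F G, (Fintype.card (P.CC S.1) : ℝ) = C)
    (hLC : L * (Fintype.card F : ℝ) = C * (Fintype.card G : ℝ))
    (Sat : Finset ((NZ F G × (Fin n → F)) × (Fin n → F))) (hsub : Sat ⊆ P.edges)
    (hsat : ∀ v f f', (v, f) ∈ Sat → (v, f') ∈ Sat → P.lab T f' - P.lab T f ∈ P.CC v.1.1)
    (ρ : (Fin n → F) → ℝ) (hρ0 : ∀ b, 0 < ρ b)
    (hρ : ∀ b, ((Finset.univ.filter (fun S : NZ F G => Ann (P.CC S.1) b)).card : ℝ) * ρ b ≤
      (Fintype.card (NZ F G) : ℝ)) :
    (Sat.card : ℝ) ^ 2 ≤ ((P.edges.card : ℝ)) ^ 2 * ((Fintype.card F : ℝ) *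
      ((Fintype.card G : ℝ) *
        ∑ b, ‖fc ψ (fun g => P.cnt T g / (Fintype.card G : ℝ)) b‖ ^ 2 / ρ b)) := by
  set q : ℝ := (Fintype.card F : ℝ) with hq
  have hq0 : 0 < q := qpos
  set N : ℝ := (Fintype.card G : ℝ) with hN
  have hN0 : 0 < N := by rw [hN]; exact_mod_cast Fintype.card_pos
  set M : ℝ := (Fintype.card (NZ F G) : ℝ) with hM
  have hM0 : 0 ≤ M := Nat.cast_nonneg _
  set a : (Fin n → F) → ℝ := fun g => P.cnt T g / N with ha
  have hcnt : ∀ g, P.cnt T g = N * a g := fun g => by rw [ha]; field_simp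
  set Y : ℝ := ∑ b, ‖fc ψ a b‖ ^ 2 / ρ b with hY
  -- the number of edges
  have hE : (P.edges.card : ℝ) = M * q ^ n * L := by
    have h1 := P.sum_edges_left L hL (fun _ => 1)
    rw [Finset.sum_const, nsmul_eq_mul, mul_one, Finset.sum_const, Finset.card_univ, nsmul_eq_mul,
      mul_one, Fintype.card_prod, Nat.cast_mul, card_fun] at h1
    rw [h1]; ring
  -- the number of satisfied edges at a left vertex
  set t : NZ F G × (Fin n → F) → ℝ := fun v => ∑ f, if (v, f) ∈ Sat then 1 else 0 with ht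
  have hS : (Sat.card : ℝ) = ∑ v, t v := by
    have h1 : (Sat.card : ℝ) = ∑ e ∈ Sat, (1 : ℝ) := by simp
    have h2 : ∑ e ∈ Sat, (1 : ℝ) = ∑ e, if e ∈ Sat then (1 : ℝ) else 0 := by
      rw [Finset.sum_ite_mem, Finset.univ_inter]
    rw [h1, h2, Fintype.sum_prod_type]
  have h1 : (Sat.card : ℝ) ^ 2 ≤ (M * q ^ n) * ∑ v, t v ^ 2 := by
    rw [hS]
    have := sq_sum_le_card_mul_sum_sq (s := (Finset.univ : Finset (NZ F G × (Fin n → F)))) (f := t)
    rw [Finset.card_univ, Fintype.card_prod, Nat.cast_mul, card_fun] at this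
    exact this
  have h2 : ∀ v, t v ^ 2 ≤ ∑ f, ∑ f', (if f - v.2 ∈ P.LL v.1.1 then (1 : ℝ) else 0) *
      (if P.lab T f' - P.lab T f ∈ P.CC v.1.1 then (1 : ℝ) else 0) := by
    intro v
    rw [sq, ht]
    simp only
    rw [Finset.sum_mul_sum]
    refine Finset.sum_le_sum fun f _ => Finset.sum_le_sum fun f' _ => ?_
    exact ite_mul_le _ _ _ _ fun hf hf' =>
      ⟨(P.mem_edges (v, f)).1 (hsub hf), hsat v f f' hf hf'⟩
  have h3 : ∑ v, t v ^ 2 ≤ ∑ S : NZ F G, L * (C * ∑ g, P.cnt T g * savg (P.CC S.1) (P.cnt T) g) := by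
    refine (Finset.sum_le_sum fun v _ => h2 v).trans (le_of_eq ?_)
    rw [Fintype.sum_prod_type]
    refine Finset.sum_congr rfl fun S _ => ?_
    rw [← hC S, ← P.pair_count T (P.CC S.1), Finset.sum_comm, Finset.mul_sum]
    refine Finset.sum_congr rfl fun f _ => ?_
    change ∑ h : Fin n → F, ∑ f', (if f - h ∈ P.LL S.1 then (1 : ℝ) else 0) *
      (if P.lab T f' - P.lab T f ∈ P.CC S.1 then (1 : ℝ) else 0) = _
    simp only [← Finset.mul_sum]
    rw [← Finset.sum_mul]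
    congr 1
    have e1 : ∀ h : Fin n → F, (if f - h ∈ P.LL S.1 then (1 : ℝ) else 0) =
        if h - f ∈ P.LL S.1 then (1 : ℝ) else 0 := by
      intro h
      have : f - h ∈ P.LL S.1 ↔ h - f ∈ P.LL S.1 := by
        rw [← neg_mem_iff, neg_sub]
      by_cases hh : h - f ∈ P.LL S.1
      · rw [if_pos hh, if_pos (this.2 hh)]
      · rw [if_neg hh, if_neg (fun h' => hh (this.1 h'))]
    rw [Finset.sum_congr rfl fun h _ => e1 h, Frame.sum_coset (P.LL S.1) f (fun _ => 1),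
      Finset.sum_const, Finset.card_univ, nsmul_eq_mul, mul_one, hL S]
  have h4 : ∀ S : NZ F G, ∑ g, P.cnt T g * savg (P.CC S.1) (P.cnt T) g =
      N ^ 2 * q ^ n * ∑ b, (if Ann (P.CC S.1) b then ‖fc ψ a b‖ ^ 2 else 0) := by
    intro S
    rw [quad ψ hψ, mul_assoc, mul_div_cancel₀ _ (pow_pos hq0 n).ne', Finset.mul_sum]
    refine Finset.sum_congr rfl fun g _ => ?_
    have e1 : savg (P.CC S.1) (P.cnt T) g = N * savg (P.CC S.1) a g := by
      rw [savg, savg, ← mul_div_assoc, Finset.mul_sum]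
      congr 1
      exact Finset.sum_congr rfl fun k _ => hcnt _
    rw [e1, hcnt g]; ring
  have h5 : ∑ S : NZ F G, ∑ b, (if Ann (P.CC S.1) b then ‖fc ψ a b‖ ^ 2 else 0) ≤ M * Y := by
    rw [Finset.sum_comm, hY, Finset.mul_sum]
    refine Finset.sum_le_sum fun b _ => ?_
    rw [← Finset.sum_filter, Finset.sum_const, nsmul_eq_mul]
    have e1 := hρ b
    rw [← mul_div_assoc, le_div_iff₀ (hρ0 b)]
    calc _ = ((Finset.univ.filter (fun S : NZ F G => Ann (P.CC S.1) b)).card : ℝ) *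
        ρ b * ‖fc ψ a b‖ ^ 2 := by ring
      _ ≤ M * ‖fc ψ a b‖ ^ 2 := mul_le_mul_of_nonneg_right e1 (by positivity)
  have hC0 : 0 ≤ C := by
    have h6 : 0 < C * N := by rw [← hLC]; positivity
    exact (pos_of_mul_pos_left h6 hN0.le).le
  have h6 : ∑ v, t v ^ 2 ≤ L * C * N ^ 2 * q ^ n * (M * Y) := by
    refine h3.trans ?_
    rw [Finset.sum_congr rfl fun S _ => by rw [h4 S], ← Finset.mul_sum, ← Finset.mul_sum,
      ← Finset.mul_sum]
    calc L * (C * (N ^ 2 * q ^ n *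
          ∑ S : NZ F G, ∑ b, (if Ann (P.CC S.1) b then ‖fc ψ a b‖ ^ 2 else 0)))
        = (L * C * N ^ 2 * q ^ n) *
          ∑ S : NZ F G, ∑ b, (if Ann (P.CC S.1) b then ‖fc ψ a b‖ ^ 2 else 0) := by ring
      _ ≤ (L * C * N ^ 2 * q ^ n) * (M * Y) :=
          mul_le_mul_of_nonneg_left h5 (by positivity)
  calc (Sat.card : ℝ) ^ 2 ≤ (M * q ^ n) * ∑ v, t v ^ 2 := h1
    _ ≤ (M * q ^ n) * (L * C * N ^ 2 * q ^ n * (M * Y)) :=
        mul_le_mul_of_nonneg_left h6 (by positivity)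
    _ = (M * q ^ n) ^ 2 * L * N * Y * (C * N) := by ring
    _ = (M * q ^ n) ^ 2 * L * N * Y * (L * q) := by rw [hLC]
    _ = _ := by rw [hE]; ring

/-- The number of functionals vanishing on a support. -/
lemma count_spn (b : Fin n → F) :
    ((Finset.univ.filter (fun S : NZ F G => Ann (P.CC S.1) b)).card : ℝ) *
      (Fintype.card F : ℝ) ^ finrank F (spn P b) ≤ (Fintype.card (NZ F G) : ℝ) := by
  have h1 := P.count_mul_le (Finset.univ.filter (fun i => b i ≠ 0))
    (Fintype.card F ^ finrank F (spn P b)) (by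
      rw [← Module.card_eq_pow_finrank (K := F)]
      refine le_of_eq (Fintype.card_congr ?_)
      refine Equiv.cast ?_
      congr 1
      unfold spn
      ext i
      simp)
  have h2 : (Finset.univ.filter (fun S : NZ F G => Ann (P.CC S.1) b)).card *
      (Fintype.card F ^ finrank F (spn P b)) ≤ Fintype.card (NZ F G) := by
    refine le_trans (Nat.mul_le_mul_right _ (Finset.card_le_card ?_)) h1
    intro S hS
    rw [Finset.mem_filter] at hS ⊢
    exact ⟨hS.1, P.ann_CC.1 hS.2⟩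
  exact_mod_cast h2

/-- The weighted Fourier sum of the shifted labels. -/
lemma weighted (ψ : AddChar F ℂ) (hψ : ψ.IsPrimitive) (a : (Fin n → F) → ℝ)
    (h0 : ∀ f, 0 ≤ a f) (h1 : ∀ f, a f ≤ 1)
    (ha : ∀ g, ∑ A : Dual F G, a (g + P.ev A) ≤ 1)
    (hm : ∑ f, a f = (Fintype.card F : ℝ) ^ n / (Fintype.card G : ℝ)) (k D₀ : ℕ)
    (hk : (Fintype.card G : ℝ) = (Fintype.card F : ℝ) ^ k) (hq2 : (2 : ℝ) ≤ (Fintype.card F : ℝ))
    (hD : 4 * D₀ ^ 2 + 10 * D₀ + 3 ≤ k) :
    (Fintype.card F : ℝ) * ((Fintype.card G : ℝ) *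
      ∑ b, ‖fc ψ a b‖ ^ 2 / (Fintype.card F : ℝ) ^ finrank F (spn P b)) ≤
        2 * ((Fintype.card F : ℝ) ^ D₀)⁻¹ := by
  set q : ℝ := (Fintype.card F : ℝ) with hq
  have hq0 : 0 < q := by linarith
  have hq1 : 1 ≤ q := by linarith
  set N : ℝ := (Fintype.card G : ℝ) with hN
  have hN0 : 0 < N := by rw [hk]; positivity
  -- the weight of a given dimension
  have hW : ∀ D : ℕ, D ≤ D₀ →
      N * ((∑ b, if finrank F (spn P b) = D then ‖fc ψ a b‖ ^ 2 else 0) / q ^ D) ≤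
        q ^ (((4 * (D₀ : ℝ) ^ 2 + 4 * D₀ - k) / 3)) := by
    intro D hDD
    set B : ℝ := (16 * q ^ 2) ^ D * (q ^ (D * D) * q ^ D) / N ^ 4 with hB
    have hB0 : 0 ≤ B := by positivity
    have hM : ∀ θ : G →ₗ[F] (Fin D → F),
        (∑ b, if Good P θ b then ‖fc ψ a b‖ ^ 2 else 0) ≤ B ^ ((1 : ℝ) / 3) := by
      intro θ
      have e1 := weight_theta P θ ψ hψ a h0 h1 ha hm
      set X := ∑ b, if Good P θ b then ‖fc ψ a b‖ ^ 2 else 0 with hX
      have hX0 : 0 ≤ X := Finset.sum_nonneg fun b _ => by split_ifs <;> positivity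
      have e2 : X = (X ^ 3) ^ ((1 : ℝ) / 3) := by
        rw [← Real.rpow_natCast, ← Real.rpow_mul hX0]
        norm_num
      rw [e2]
      exact Real.rpow_le_rpow (by positivity) e1 (by norm_num)
    have e1 := weight_dim P D (fun b => ‖fc ψ a b‖ ^ 2) (fun b => sq_nonneg _) _ hM
    have e2 : B ≤ q ^ ((D : ℝ) ^ 2 + 7 * D - 4 * k) := by
      have e3 : (16 * q ^ 2) ^ D ≤ q ^ (6 * (D : ℝ)) := by
        have : 16 * q ^ 2 ≤ q ^ 6 := by
          have : (16 : ℝ) ≤ q ^ 4 := by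
            calc (16 : ℝ) = 2 ^ 4 := by norm_num
              _ ≤ q ^ 4 := pow_le_pow_left₀ (by norm_num) hq2 4
          calc 16 * q ^ 2 ≤ q ^ 4 * q ^ 2 := mul_le_mul_of_nonneg_right this (by positivity)
            _ = q ^ 6 := by ring
        calc (16 * q ^ 2) ^ D ≤ (q ^ 6) ^ D := pow_le_pow_left₀ (by positivity) this D
          _ = q ^ (6 * (D : ℝ)) := by
            rw [← pow_mul, ← Real.rpow_natCast]
            push_cast
            rfl
      have e4 : q ^ (D * D) * q ^ D = q ^ ((D : ℝ) ^ 2 + D) := by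
        rw [← pow_add, ← Real.rpow_natCast]
        congr 1
        push_cast
        ring
      have e5 : N ^ 4 = q ^ (4 * (k : ℝ)) := by
        rw [hk, ← pow_mul, ← Real.rpow_natCast]
        congr 1
        push_cast
        ring
      rw [hB, e4, e5, div_eq_mul_inv, ← Real.rpow_neg hq0.le]
      calc (16 * q ^ 2) ^ D * q ^ ((D : ℝ) ^ 2 + D) * q ^ (-(4 * (k : ℝ)))
          ≤ q ^ (6 * (D : ℝ)) * q ^ ((D : ℝ) ^ 2 + D) * q ^ (-(4 * (k : ℝ))) := by
            gcongr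
        _ = _ := by
            rw [← Real.rpow_add hq0, ← Real.rpow_add hq0]
            congr 1
            ring
    have e3 : B ^ ((1 : ℝ) / 3) ≤ q ^ (((D : ℝ) ^ 2 + 7 * D - 4 * k) / 3) := by
      calc B ^ ((1 : ℝ) / 3) ≤ (q ^ ((D : ℝ) ^ 2 + 7 * D - 4 * k)) ^ ((1 : ℝ) / 3) :=
            Real.rpow_le_rpow hB0 e2 (by norm_num)
        _ = _ := by
            rw [← Real.rpow_mul hq0.le]
            congr 1
            ring
    have e4 : (∑ b, if finrank F (spn P b) = D then ‖fc ψ a b‖ ^ 2 else 0) ≤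
        q ^ ((D : ℝ) ^ 2) * q ^ (((D : ℝ) ^ 2 + 7 * D - 4 * k) / 3) := by
      refine e1.trans ?_
      have e5 : q ^ (D * D) = q ^ ((D : ℝ) ^ 2) := by
        rw [← Real.rpow_natCast]
        congr 1
        push_cast
        ring
      rw [e5]
      exact mul_le_mul_of_nonneg_left e3 (by positivity)
    calc N * ((∑ b, if finrank F (spn P b) = D then ‖fc ψ a b‖ ^ 2 else 0) / q ^ D)
        ≤ N * (q ^ ((D : ℝ) ^ 2) * q ^ (((D : ℝ) ^ 2 + 7 * D - 4 * k) / 3) / q ^ D) := by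
          gcongr
      _ = q ^ ((4 * (D : ℝ) ^ 2 + 4 * D - k) / 3) := by
          rw [hk, div_eq_mul_inv, ← Real.rpow_natCast q k, ← Real.rpow_natCast q D,
            ← Real.rpow_neg hq0.le, ← Real.rpow_add hq0, ← Real.rpow_add hq0,
            ← Real.rpow_add hq0]
          congr 1
          ring
      _ ≤ _ := by
          refine Real.rpow_le_rpow_of_exponent_le hq1 ?_
          have : (D : ℝ) ≤ D₀ := by exact_mod_cast hDD
          have h0' : (0 : ℝ) ≤ D := Nat.cast_nonneg _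
          have : (D : ℝ) ^ 2 ≤ (D₀ : ℝ) ^ 2 := pow_le_pow_left₀ h0' this 2
          linarith
  -- the tail
  have hpar : ∑ b, ‖fc ψ a b‖ ^ 2 ≤ 1 / N := by
    rw [parseval ψ hψ]
    have e1 : ∑ f, a f ^ 2 ≤ ∑ f, a f := Finset.sum_le_sum fun g _ => by
      calc a g ^ 2 = a g * a g := by ring
        _ ≤ a g * 1 := mul_le_mul_of_nonneg_left (h1 g) (h0 g)
        _ = a g := mul_one _
    rw [hm] at e1
    rw [div_le_iff₀ (by positivity)]
    refine e1.trans (le_of_eq ?_)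
    rw [← hq]
    field_simp
  have hsplit : ∑ b, ‖fc ψ a b‖ ^ 2 / q ^ finrank F (spn P b) ≤
      ∑ D ∈ Finset.range (D₀ + 1),
        (∑ b, if finrank F (spn P b) = D then ‖fc ψ a b‖ ^ 2 else 0) / q ^ D +
      (q ^ (D₀ + 1))⁻¹ * ∑ b, ‖fc ψ a b‖ ^ 2 := by
    have e1 : ∑ D ∈ Finset.range (D₀ + 1),
        (∑ b, if finrank F (spn P b) = D then ‖fc ψ a b‖ ^ 2 else 0) / q ^ D =
        ∑ b, ∑ D ∈ Finset.range (D₀ + 1),
          (if finrank F (spn P b) = D then ‖fc ψ a b‖ ^ 2 else 0) / q ^ D := by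
      rw [Finset.sum_comm]
      exact Finset.sum_congr rfl fun D _ => Finset.sum_div _ _ _
    rw [e1, Finset.mul_sum, ← Finset.sum_add_distrib]
    refine Finset.sum_le_sum fun b _ => ?_
    have e0 : 0 ≤ ‖fc ψ a b‖ ^ 2 := by positivity
    have e2 : ∀ D ∈ Finset.range (D₀ + 1),
        0 ≤ (if finrank F (spn P b) = D then ‖fc ψ a b‖ ^ 2 else 0) / q ^ D := by
      intro D _
      split_ifs <;> positivity
    by_cases hb : finrank F (spn P b) ≤ D₀
    · have e3 := Finset.single_le_sum e2 (Finset.mem_range.2 (Nat.lt_succ_of_le hb))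
      rw [if_pos rfl] at e3
      have : 0 ≤ (q ^ (D₀ + 1))⁻¹ * ‖fc ψ a b‖ ^ 2 := by positivity
      linarith
    · have e3 := Finset.sum_nonneg e2
      have e4 : ‖fc ψ a b‖ ^ 2 / q ^ finrank F (spn P b) ≤
          (q ^ (D₀ + 1))⁻¹ * ‖fc ψ a b‖ ^ 2 := by
        rw [div_eq_mul_inv, mul_comm]
        refine mul_le_mul_of_nonneg_right ?_ e0
        refine inv_anti₀ (by positivity) (pow_le_pow_right₀ hq1 (by omega))
      linarith
  have hsum : N * ∑ D ∈ Finset.range (D₀ + 1),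
        (∑ b, if finrank F (spn P b) = D then ‖fc ψ a b‖ ^ 2 else 0) / q ^ D ≤
      (q ^ (D₀ + 1))⁻¹ := by
    rw [Finset.mul_sum]
    calc ∑ D ∈ Finset.range (D₀ + 1),
          N * ((∑ b, if finrank F (spn P b) = D then ‖fc ψ a b‖ ^ 2 else 0) / q ^ D)
        ≤ ∑ _D ∈ Finset.range (D₀ + 1), q ^ (((4 * (D₀ : ℝ) ^ 2 + 4 * D₀ - k) / 3)) :=
          Finset.sum_le_sum fun D hD' => hW D (by rw [Finset.mem_range] at hD'; omega)
      _ = ((D₀ : ℝ) + 1) * q ^ (((4 * (D₀ : ℝ) ^ 2 + 4 * D₀ - k) / 3)) := by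
          rw [Finset.sum_const, Finset.card_range, nsmul_eq_mul]
          push_cast
          rfl
      _ ≤ q ^ (D₀ : ℝ) * q ^ (((4 * (D₀ : ℝ) ^ 2 + 4 * D₀ - k) / 3)) := by
          refine mul_le_mul_of_nonneg_right ?_ (by positivity)
          have e4 : (D₀ : ℝ) + 1 ≤ 2 ^ D₀ := by
            have := Nat.lt_two_pow_self (n := D₀)
            exact_mod_cast this
          have e5 : (2 : ℝ) ^ D₀ ≤ q ^ D₀ := pow_le_pow_left₀ (by norm_num) hq2 D₀
          rw [Real.rpow_natCast]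
          linarith
      _ ≤ q ^ (-((D₀ : ℝ) + 1)) := by
          rw [← Real.rpow_add hq0]
          refine Real.rpow_le_rpow_of_exponent_le hq1 ?_
          have : 4 * (D₀ : ℝ) ^ 2 + 10 * D₀ + 3 ≤ k := by exact_mod_cast hD
          linarith
      _ = (q ^ (D₀ + 1))⁻¹ := by
          rw [Real.rpow_neg hq0.le, ← Real.rpow_natCast q (D₀ + 1)]
          push_cast
          rfl
  calc q * (N * ∑ b, ‖fc ψ a b‖ ^ 2 / q ^ finrank F (spn P b))
      ≤ q * (N * (∑ D ∈ Finset.range (D₀ + 1),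
        (∑ b, if finrank F (spn P b) = D then ‖fc ψ a b‖ ^ 2 else 0) / q ^ D +
        (q ^ (D₀ + 1))⁻¹ * (1 / N))) := by
        refine mul_le_mul_of_nonneg_left (mul_le_mul_of_nonneg_left (hsplit.trans ?_) hN0.le)
          hq0.le
        have := mul_le_mul_of_nonneg_left hpar (inv_nonneg.2 (pow_pos hq0 (D₀ + 1)).le)
        linarith
    _ = q * (N * (∑ D ∈ Finset.range (D₀ + 1),
        (∑ b, if finrank F (spn P b) = D then ‖fc ψ a b‖ ^ 2 else 0) / q ^ D) +
        (q ^ (D₀ + 1))⁻¹) := by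
        field_simp
    _ ≤ q * ((q ^ (D₀ + 1))⁻¹ + (q ^ (D₀ + 1))⁻¹) := by
        refine mul_le_mul_of_nonneg_left ?_ hq0.le
        linarith
    _ = _ := by
        rw [pow_succ]
        field_simp
        ring

/-- A labelling of the gap instance satisfies few edges. -/
lemma frac_sq {κ : ℕ} (P : Frame F (GG F κ) n) (ψ : AddChar F ℂ) (hψ : ψ.IsPrimitive)
    (S₀ : NZ F (GG F κ)) (D₀ : ℕ) (hD : 4 * D₀ ^ 2 + 10 * D₀ + 3 ≤ κ + 1)
    (Fl : NZ F (GG F κ) × (Fin n → F) → Fin (Fintype.card F ^ κ))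
    (gl : (Fin n → F) → Fin (Fintype.card F * Fintype.card F ^ κ)) :
    (inst P).frac Fl gl ^ 2 ≤ 2 * ((Fintype.card F : ℝ) ^ D₀)⁻¹ := by
  have hN : (Fintype.card (GG F κ) : ℝ) = (Fintype.card F : ℝ) ^ (κ + 1) := by
    rw [Fintype.card_fun, Fintype.card_fin]; push_cast; rfl
  have hN0 : (0 : ℝ) < (Fintype.card (GG F κ) : ℝ) := by exact_mod_cast Fintype.card_pos
  have hq2 : (2 : ℝ) ≤ (Fintype.card F : ℝ) := by
    have : 1 < Fintype.card F := Fintype.one_lt_card
    exact_mod_cast this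
  set T : (Fin n → F) → Dual F (GG F κ) := fun f => tau F κ (gl f) with hT
  have hw := weighted P ψ hψ (fun g => P.cnt T g / (Fintype.card (GG F κ) : ℝ))
    (fun g => div_nonneg (P.cnt_nonneg T g) hN0.le)
    (fun g => (div_le_one hN0).2 (P.cnt_le T g))
    (fun g => by
      rw [← Finset.sum_div]
      exact (div_le_one hN0).2 (sum_shift_cnt P T g))
    (by rw [← Finset.sum_div, P.sum_cnt T]) (κ + 1) D₀ hN hq2 hD
  set B : ℝ := 2 * ((Fintype.card F : ℝ) ^ D₀)⁻¹ with hB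
  have hB0 : 0 ≤ B := by positivity
  set Sat := (inst P).E.filter (fun e => (inst P).π e (gl e.2) = Fl e.1) with hSat
  have h1 : (Sat.card : ℝ) ^ 2 ≤ ((P.edges.card : ℝ)) ^ 2 * B := by
    refine (sound_w P ψ hψ T (Fintype.card (P.LL S₀.1) : ℝ)
      (Fintype.card (P.CC S₀.1) : ℝ) (by exact_mod_cast Fintype.card_pos) ?_ ?_ ?_ Sat
      (Finset.filter_subset _ _) ?_ (fun b => (Fintype.card F : ℝ) ^ finrank F (spn P b))
      (fun b => by positivity) (fun b => count_spn P b)).trans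
      (mul_le_mul_of_nonneg_left hw (sq_nonneg _))
    · intro S; rw [P.card_LL_eq S.2 S₀.2]
    · intro S; rw [P.card_CC_eq S.2 S₀.2]
    · exact_mod_cast P.card_LL S₀.2
    · intro v f f' hf hf' i hi
      have e1 : lft v.1 (tau F κ (gl f) + shf P v f) = Fl v := (Finset.mem_filter.1 hf).2
      have e2 : lft v.1 (tau F κ (gl f') + shf P v f') = Fl v := (Finset.mem_filter.1 hf').2
      obtain ⟨c, hc⟩ := (lft_eq_iff _ _ _).1 (e2.trans e1.symm)
      have e3 := shf_spec P ((P.mem_edges (v, f)).1 (Finset.mem_filter.1 hf).1) i hi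
      have e4 := shf_spec P ((P.mem_edges (v, f')).1 (Finset.mem_filter.1 hf').1) i hi
      have e5 : tau F κ (gl f') (P.pt i) + shf P v f' (P.pt i) =
          tau F κ (gl f) (P.pt i) + shf P v f (P.pt i) + c * v.1.1 (P.pt i) := by
        have := congrArg (fun A : Dual F (GG F κ) => A (P.pt i)) hc
        simpa using this
      rw [hi, mul_zero, add_zero, ← e3, ← e4] at e5
      have e6 : f' i + tau F κ (gl f') (P.pt i) = f i + tau F κ (gl f) (P.pt i) := by
        linear_combination e5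
      rw [Frame.lab, Frame.lab, Pi.sub_apply, Pi.add_apply, Pi.add_apply, P.ev_apply, P.ev_apply,
        e6, sub_self]
  rw [LabelCover.frac, ← hSat, div_pow]
  rcases (sq_nonneg (P.edges.card : ℝ)).eq_or_lt with h0 | h0
  · change (Sat.card : ℝ) ^ 2 / (P.edges.card : ℝ) ^ 2 ≤ B
    rw [← h0, div_zero]; exact hB0
  · change (Sat.card : ℝ) ^ 2 / (P.edges.card : ℝ) ^ 2 ≤ B
    rw [div_le_iff₀ h0, mul_comm]; exact h1

/-- The choice of the dimension. -/
lemma exists_D (q : ℝ) (hq : 2 ≤ q) (κ : ℕ) :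
    (1 ≤ 2 * q ^ (3 / 2 - √κ / 4)) ∨ ∃ D₀ : ℕ, 4 * D₀ ^ 2 + 10 * D₀ + 3 ≤ κ + 1 ∧
      2 * (q ^ D₀)⁻¹ ≤ (2 * q ^ (3 / 2 - √κ / 4)) ^ 2 := by
  have hq0 : 0 < q := by linarith
  have hq1 : 1 ≤ q := by linarith
  set s : ℝ := √κ / 2 with hs
  have hs0 : 0 ≤ s := by positivity
  have hs2 : 4 * s ^ 2 = κ := by
    rw [hs, div_pow, Real.sq_sqrt (Nat.cast_nonneg κ)]
    ring
  by_cases h : s < 2
  · left
    have : (1 : ℝ) ≤ q ^ (3 / 2 - √κ / 4) := by
      refine Real.one_le_rpow hq1 ?_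
      have : √κ / 4 = s / 2 := by rw [hs]; ring
      rw [this]
      linarith
    linarith
  · right
    push Not at h
    have h1 : 2 ≤ ⌊s⌋₊ := Nat.le_floor (by exact_mod_cast h)
    refine ⟨⌊s⌋₊ - 2, ?_, ?_⟩
    · have h2 : ((⌊s⌋₊ - 2 : ℕ) : ℝ) ≤ s - 2 := by
        rw [Nat.cast_sub h1]
        have := Nat.floor_le hs0
        push_cast
        linarith
      set D₀ := ⌊s⌋₊ - 2 with hD
      have h3 : (4 * (D₀ : ℝ) ^ 2 + 10 * D₀ + 3) ≤ κ + 1 := by
        have h4 : (0 : ℝ) ≤ D₀ := Nat.cast_nonneg _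
        have h5 : (D₀ : ℝ) ^ 2 ≤ (s - 2) ^ 2 := pow_le_pow_left₀ h4 h2 2
        nlinarith
      exact_mod_cast h3
    · have h2 : s - 3 ≤ ((⌊s⌋₊ - 2 : ℕ) : ℝ) := by
        rw [Nat.cast_sub h1]
        have := Nat.lt_floor_add_one s
        push_cast
        linarith
      have h3 : (q ^ (⌊s⌋₊ - 2))⁻¹ ≤ q ^ (3 - s) := by
        rw [← Real.rpow_natCast, ← Real.rpow_neg hq0.le]
        exact Real.rpow_le_rpow_of_exponent_le hq1 (by linarith)
      have h4 : (2 * q ^ (3 / 2 - √κ / 4)) ^ 2 = 4 * q ^ (3 - s) := by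
        rw [mul_pow, ← Real.rpow_natCast (q ^ (3 / 2 - √κ / 4)) 2, ← Real.rpow_mul hq0.le]
        congr 1
        · norm_num
        · congr 1
          rw [hs]
          push_cast
          ring
      rw [h4]
      have h5 : 0 < q ^ (3 - s) := by positivity
      linarith

/-- **Gap instances with perfect solutions and exponentially small value.** -/
lemma upper (F : Type) [Field F] [Fintype F] (κ : ℕ) :
    ∃ (V W : Type) (_ : Fintype V) (_ : Fintype W)
      (Φ : LabelCover V W (Fintype.card F) (Fintype.card F ^ κ)) (N : ℕ),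
      Φ.E.Nonempty ∧ Φ.SecondSingular (1 / (Fintype.card F : ℝ)) ∧
        (∃ S : PerfectSolution Φ N, S.CommonSum) ∧
        Φ.value ≤ 2 * (Fintype.card F : ℝ) ^ ((3 : ℝ) / 2 - √κ / 4) := by
  have hq : 1 < Fintype.card F := Fintype.one_lt_card
  have hq2 : (2 : ℝ) ≤ (Fintype.card F : ℝ) := by exact_mod_cast hq
  set ψ : AddChar F ℂ := AddChar.FiniteField.primitiveChar_to_Complex F with hψd
  have hψ : ψ.IsPrimitive := AddChar.FiniteField.primitiveChar_to_Complex_isPrimitive F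
  obtain ⟨n, ⟨P⟩⟩ := exists_frame (F := F) (G := GG F κ)
  obtain ⟨S₁, hS₁⟩ : ∃ S : Dual F (GG F κ), S ≠ 0 := exists_ne 0
  set S₀ : NZ F (GG F κ) := ⟨S₁, hS₁⟩ with hS₀
  refine ⟨NZ F (GG F κ) × (Fin n → F), Fin n → F, inferInstance, inferInstance,
    inst P, Fintype.card (GG F κ × Bool), ?_, ?_,
    ⟨perf P ψ hψ, zv F κ, norm_zv, sum_xv P ψ hψ, sum_yv P ψ hψ⟩, ?_⟩
  · refine ⟨((S₀, 0), 0), (P.mem_edges _).2 ?_⟩
    rw [sub_self]
    exact Submodule.zero_mem _
  · intro f g h0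
    refine P.spectral ψ hψ (Fintype.card (P.LL S₀.1) : ℝ) (by exact_mod_cast Fintype.card_pos) ?_
      f g h0
    intro S; rw [P.card_LL_eq S.2 S₀.2]
  · have hR : 0 < Fintype.card F ^ κ := pow_pos Fintype.card_pos _
    have : Nonempty (Fin (Fintype.card F ^ κ)) := ⟨⟨0, hR⟩⟩
    have : Nonempty (Fin (Fintype.card F * Fintype.card F ^ κ)) :=
      ⟨⟨0, Nat.mul_pos Fintype.card_pos hR⟩⟩
    refine ciSup_le fun fg => ?_
    rcases exists_D (Fintype.card F : ℝ) hq2 κ with h | ⟨D₀, hD, h⟩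
    · refine le_trans ?_ h
      rw [LabelCover.frac]
      refine div_le_one_of_le₀ ?_ (Nat.cast_nonneg _)
      exact_mod_cast Finset.card_filter_le _ _
    · refine le_of_sq_le_sq ?_ (by positivity)
      exact (frac_sq P ψ hψ S₀ D₀ hD fg.1 fg.2).trans h

end

end Pool.Agent.H25.DTO
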