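import Pool.Agent.H25.DTO.Glob

/-!
The fourth moment of the part of a global function with spans separated by a linear map.
-/

namespace Pool.Agent.H25.DTO

open Finset Module Pool.Agent.H76.DTO
open scoped Classical

noncomputable section

set_option linter.unusedSectionVars false

variable {F : Type} [Field F] [Fintype F] {n : ℕ}
variable {G : Type} [AddCommGroup G] [Module F G] [Fintype G] (P : Frame F G n)
variable {D : ℕ} (θ : G →ₗ[F] (Fin D → F))

/-- the generator coordinates -/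
def gen (i : Fin n) : Prop := ∃ j : Fin D, θ (P.pt i) = Pi.single j 1

/-- the span of the generator coordinates in the support -/
def Usp (b : Fin n → F) : Submodule F G :=
  Submodule.span F (P.pt '' {i | gen P θ i ∧ b i ≠ 0})

/-- the support lies in the span of the generator coordinates, on which `θ` is injective -/
def Good (b : Fin n → F) : Prop :=
  (∀ i, b i ≠ 0 → P.pt i ∈ Usp P θ b) ∧ Set.InjOn θ (Usp P θ b : Set G)

lemma Usp_congr {b b' : Fin n → F} (h : ∀ i, gen P θ i → b i = b' i) :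
    Usp P θ b = Usp P θ b' := by
  unfold Usp
  congr 2
  ext i
  constructor
  · rintro ⟨h1, h2⟩
    exact ⟨h1, by rwa [← h i h1]⟩
  · rintro ⟨h1, h2⟩
    exact ⟨h1, by rwa [h i h1]⟩

lemma gen_mem {b : Fin n → F} {i : Fin n} (h : gen P θ i) (hb : b i ≠ 0) :
    P.pt i ∈ Usp P θ b := Submodule.subset_span ⟨i, ⟨h, hb⟩, rfl⟩

lemma wt_le {b : Fin n → F} (h : Set.InjOn θ (Usp P θ b : Set G)) :
    wt (mask (gen P θ) b) ≤ D := by
  set s := Finset.univ.filter (fun i => mask (gen P θ) b i ≠ 0) with hs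
  have h1 : ∀ i ∈ s, gen P θ i ∧ b i ≠ 0 := by
    intro i hi
    have := (Finset.mem_filter.1 hi).2
    unfold mask at this
    split_ifs at this with hg
    · exact ⟨hg, this⟩
    · exact absurd rfl this
  have h3 : Function.Injective (fun i : s => (h1 i i.2).1.choose) := by
    intro i j hij
    have hi := (h1 i i.2).1.choose_spec
    have hj := (h1 j j.2).1.choose_spec
    change (h1 i i.2).1.choose = (h1 j j.2).1.choose at hij
    rw [hij, ← hj] at hi
    have h4 := h (gen_mem P θ (h1 i i.2).1 (h1 i i.2).2) (gen_mem P θ (h1 j j.2).1 (h1 j j.2).2) hi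
    exact Subtype.ext (P.pt_injective h4)
  have h2 := Fintype.card_le_of_injective _ h3
  rw [Fintype.card_coe, Fintype.card_fin] at h2
  exact h2

lemma finrank_le {U : Submodule F G} (h : Set.InjOn θ (U : Set G)) : finrank F U ≤ D := by
  have h1 : Function.Injective (θ.domRestrict U) := by
    intro x y hxy
    exact Subtype.ext (h x.2 y.2 hxy)
  have h2 := LinearMap.finrank_le_finrank_of_injective h1
  rwa [Module.finrank_fin_fun] at h2

instance : Fintype (Submodule F (Fin D → F)) := Fintype.ofFinite _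

lemma card_submodule : Fintype.card (Submodule F (Fin D → F)) ≤ Fintype.card F ^ (D * D) := by
  have : Fintype ((Fin D → F) →ₗ[F] (Fin D → F)) :=
    Fintype.ofInjective (fun S => (S : (Fin D → F) → Fin D → F)) DFunLike.coe_injective
  have h1 : Function.Surjective
      (fun φ : (Fin D → F) →ₗ[F] (Fin D → F) => LinearMap.range φ) := by
    intro U
    obtain ⟨W, hW⟩ := Submodule.exists_isCompl U
    refine ⟨U.subtype ∘ₗ U.projectionOnto W hW, ?_⟩
    change LinearMap.range _ = U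
    rw [LinearMap.range_comp, Submodule.range_projectionOnto, Submodule.map_top,
      Submodule.range_subtype]
  have h2 := Fintype.card_le_of_surjective _ h1
  refine h2.trans (le_of_eq ?_)
  rw [Module.card_eq_pow_finrank (K := F) (V := (Fin D → F) →ₗ[F] (Fin D → F)),
    Module.finrank_linearMap, Module.finrank_fin_fun]

/-- the good part of the Fourier transform -/
def gfc (ψ : AddChar F ℂ) (a : (Fin n → F) → ℝ) (b : Fin n → F) : ℂ :=
  if Good P θ b then fc ψ a b else 0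

/-- the points of the span of a generator vector which are not generator coordinates -/
def CC' (β : Fin n → F) (i : Fin n) : Prop := ¬ gen P θ i ∧ P.pt i ∈ Usp P θ β

lemma frz_eq (ψ : AddChar F ℂ) (a : (Fin n → F) → ℝ) (β : Fin n → F)
    (hβ : Set.InjOn θ (Usp P θ β : Set G)) (g r : Fin n → F) :
    frz ψ (CC' P θ β) (gfc P θ ψ a) g r = 0 ∨ ∃ K : Submodule F (Fin D → F),
      frz ψ (CC' P θ β) (gfc P θ ψ a) g r =
        frz ψ (fun i => CC' P θ β i ∧ θ (P.pt i) ∈ K) (fc ψ a) g r := by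
  by_cases h : ∃ b₀, mask (fun i => ¬ CC' P θ β i) b₀ = r ∧ Good P θ b₀
  swap
  · left
    refine Finset.sum_eq_zero fun b _ => ?_
    split_ifs with hb
    · rw [gfc, if_neg (fun hg => h ⟨b, hb, hg⟩), zero_mul]
    · rfl
  obtain ⟨b₀, hb₀, hg₀⟩ := h
  right
  set K : Submodule F (Fin D → F) := Submodule.map θ (Usp P θ b₀ ⊓ Usp P θ β) with hK
  refine ⟨K, Finset.sum_congr rfl fun b _ => ?_⟩
  have hr : ∀ i, ¬ CC' P θ β i → r i = b₀ i := fun i hi => by
    rw [← hb₀, mask, if_pos hi]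
  have hr0 : ∀ i, CC' P θ β i → r i = 0 := fun i hi => by
    rw [← hb₀, mask, if_neg (not_not.2 hi)]
  have hgen : ∀ i, gen P θ i → ¬ CC' P θ β i := fun i hi h => h.1 hi
  by_cases hb : mask (fun i => ¬ CC' P θ β i) b = r ∧ Good P θ b
  · obtain ⟨hb1, hb2⟩ := hb
    have hbr : ∀ i, ¬ CC' P θ β i → b i = r i := fun i hi => by
      rw [← hb1, mask, if_pos hi]
    have hU : Usp P θ b = Usp P θ b₀ :=
      Usp_congr P θ fun i hi => (hbr i (hgen i hi)).trans (hr i (hgen i hi))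
    have hin : ∀ i, CC' P θ β i → b i ≠ 0 → θ (P.pt i) ∈ K := by
      intro i hi hbi
      refine ⟨P.pt i, ⟨?_, hi.2⟩, rfl⟩
      rw [← hU]
      exact hb2.1 i hbi
    have hm1 : mask (fun i => ¬ (CC' P θ β i ∧ θ (P.pt i) ∈ K)) b = r := by
      funext i
      simp only [mask]
      by_cases hi : CC' P θ β i
      · by_cases hbi : b i = 0
        · rw [hr0 i hi]
          split_ifs <;> simp [hbi]
        · rw [if_neg (not_not.2 ⟨hi, hin i hi hbi⟩), hr0 i hi]
      · rw [if_pos (fun h => hi h.1), hbr i hi]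
    have hm2 : mask (CC' P θ β) b = mask (fun i => CC' P θ β i ∧ θ (P.pt i) ∈ K) b := by
      funext i
      simp only [mask]
      by_cases hi : CC' P θ β i
      · by_cases hbi : b i = 0
        · simp [hbi]
        · rw [if_pos hi, if_pos ⟨hi, hin i hi hbi⟩]
      · rw [if_neg hi, if_neg (fun h => hi h.1)]
    rw [if_pos hb1, if_pos hm1, gfc, if_pos hb2, hm2]
  · have h1 : (if mask (fun i => ¬ CC' P θ β i) b = r then gfc P θ ψ a b *
        ψ (dot (mask (CC' P θ β) b) g) else 0) = 0 := by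
      split_ifs with h
      · rw [gfc, if_neg (fun hg => hb ⟨h, hg⟩), zero_mul]
      · rfl
    rw [h1, if_neg]
    intro hm
    apply hb
    have hbi1 : ∀ i, ¬ (CC' P θ β i ∧ θ (P.pt i) ∈ K) → b i = r i := fun i hi => by
      rw [← hm, mask, if_pos hi]
    have hU : Usp P θ b = Usp P θ b₀ :=
      Usp_congr P θ fun i hi =>
        (hbi1 i (fun h => hgen i hi h.1)).trans (hr i (hgen i hi))
    refine ⟨?_, ?_, ?_⟩
    · funext i
      simp only [mask]
      by_cases hi : CC' P θ β i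
      · rw [if_neg (not_not.2 hi), hr0 i hi]
      · rw [if_pos hi, hbi1 i (fun h => hi h.1)]
    · intro i hi
      rw [hU]
      by_cases hc : CC' P θ β i
      · by_cases hk : θ (P.pt i) ∈ K
        · obtain ⟨x, hx, hxe⟩ := hk
          have : P.pt i = x := hβ hc.2 hx.2 hxe.symm
          rw [this]
          exact hx.1
        · rw [hbi1 i (fun h => hk h.2), hr0 i hc] at hi
          exact absurd rfl hi
      · rw [hbi1 i (fun h => hc h.1), hr i hc] at hi
        exact hg₀.1 i hi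
    · rw [hU]
      exact hg₀.2

/-- the second moment with the coordinates of one span frozen -/
lemma second (ψ : AddChar F ℂ) (hψ : ψ.IsPrimitive) (a : (Fin n → F) → ℝ) (h0 : ∀ f, 0 ≤ a f)
    (h1 : ∀ f, a f ≤ 1) (ha : ∀ g, ∑ A : Dual F G, a (g + P.ev A) ≤ 1) (β : Fin n → F)
    (hβ : Set.InjOn θ (Usp P θ β : Set G)) (g : Fin n → F) :
    ∑ y, ‖fsum ψ (gfc P θ ψ a) (mix (CC' P θ β) g y)‖ ^ 2 ≤ (Fintype.card F : ℝ) ^ n *
      ((Fintype.card F : ℝ) ^ (D * D) * ((Fintype.card F : ℝ) ^ D / (Fintype.card G : ℝ))) := by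
  set q : ℝ := (Fintype.card F : ℝ) with hq
  have hq0 : 0 < q := qpos
  have hq1 : 1 ≤ q := by rw [hq]; exact_mod_cast Fintype.card_pos
  have hN0 : (0 : ℝ) < (Fintype.card G : ℝ) := by exact_mod_cast Fintype.card_pos
  simp only [fsum_mix]
  rw [fsum_sq ψ hψ]
  refine mul_le_mul_of_nonneg_left ?_ (by positivity)
  have e1 : ∀ r, ‖frz ψ (CC' P θ β) (gfc P θ ψ a) g r‖ ^ 2 ≤
      ∑ K : Submodule F (Fin D → F),
        ‖frz ψ (fun i => CC' P θ β i ∧ θ (P.pt i) ∈ K) (fc ψ a) g r‖ ^ 2 := by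
    intro r
    rcases frz_eq P θ ψ a β hβ g r with h | ⟨K, h⟩
    · rw [h]
      simp only [norm_zero, ne_eq, OfNat.ofNat_ne_zero, not_false_eq_true, zero_pow]
      exact Finset.sum_nonneg fun K _ => sq_nonneg _
    · rw [h]
      exact Finset.single_le_sum (f := fun K : Submodule F (Fin D → F) =>
        ‖frz ψ (fun i => CC' P θ β i ∧ θ (P.pt i) ∈ K) (fc ψ a) g r‖ ^ 2)
        (fun K _ => sq_nonneg _) (Finset.mem_univ K)
  have e2 : ∀ K : Submodule F (Fin D → F),
      ∑ r, ‖frz ψ (fun i => CC' P θ β i ∧ θ (P.pt i) ∈ K) (fc ψ a) g r‖ ^ 2 ≤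
        q ^ D / (Fintype.card G : ℝ) := by
    intro K
    have e3 := fsum_sq ψ hψ (frz ψ (fun i => CC' P θ β i ∧ θ (P.pt i) ∈ K) (fc ψ a) g)
    have e4 : ∑ y, ‖fsum ψ (frz ψ (fun i => CC' P θ β i ∧ θ (P.pt i) ∈ K) (fc ψ a) g) y‖ ^ 2 ≤
        q ^ n * (q ^ D / (Fintype.card G : ℝ)) := by
      calc ∑ y, ‖fsum ψ (frz ψ (fun i => CC' P θ β i ∧ θ (P.pt i) ∈ K) (fc ψ a) g) y‖ ^ 2
          = ∑ y, a (mix (fun i => CC' P θ β i ∧ θ (P.pt i) ∈ K) g y) ^ 2 := by
            refine Finset.sum_congr rfl fun y _ => ?_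
            rw [← fsum_mix, fsum_fc ψ hψ, Complex.norm_real, Real.norm_eq_abs, sq_abs]
        _ ≤ ∑ y, a (mix (fun i => CC' P θ β i ∧ θ (P.pt i) ∈ K) g y) := by
            refine Finset.sum_le_sum fun y _ => ?_
            have := h0 (mix (fun i => CC' P θ β i ∧ θ (P.pt i) ∈ K) g y)
            have := h1 (mix (fun i => CC' P θ β i ∧ θ (P.pt i) ∈ K) g y)
            nlinarith
        _ ≤ q ^ n * (q ^ finrank F (Usp P θ β) / (Fintype.card G : ℝ)) :=
            glob_bound P a h0 ha (Usp P θ β) _ (fun i hi => hi.1.2) g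
        _ ≤ q ^ n * (q ^ D / (Fintype.card G : ℝ)) := by
            refine mul_le_mul_of_nonneg_left (div_le_div_of_nonneg_right
              (pow_le_pow_right₀ hq1 (finrank_le θ hβ)) hN0.le) (by positivity)
    rw [e3] at e4
    exact le_of_mul_le_mul_left e4 (by positivity)
  calc ∑ r, ‖frz ψ (CC' P θ β) (gfc P θ ψ a) g r‖ ^ 2
      ≤ ∑ r, ∑ K : Submodule F (Fin D → F),
        ‖frz ψ (fun i => CC' P θ β i ∧ θ (P.pt i) ∈ K) (fc ψ a) g r‖ ^ 2 :=
        Finset.sum_le_sum fun r _ => e1 r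
    _ = ∑ K : Submodule F (Fin D → F), ∑ r,
        ‖frz ψ (fun i => CC' P θ β i ∧ θ (P.pt i) ∈ K) (fc ψ a) g r‖ ^ 2 := Finset.sum_comm
    _ ≤ ∑ _K : Submodule F (Fin D → F), q ^ D / (Fintype.card G : ℝ) :=
        Finset.sum_le_sum fun K _ => e2 K
    _ = (Fintype.card (Submodule F (Fin D → F)) : ℝ) * (q ^ D / (Fintype.card G : ℝ)) := by
        rw [Finset.sum_const, Finset.card_univ, nsmul_eq_mul]
    _ ≤ q ^ (D * D) * (q ^ D / (Fintype.card G : ℝ)) := by
        refine mul_le_mul_of_nonneg_right ?_ (by positivity)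
        have := card_submodule (F := F) (D := D)
        rw [hq]
        exact_mod_cast this

/-- the total weight of the frozen coefficients, generator coordinates free -/
def WW (ψ : AddChar F ℂ) (a : (Fin n → F) → ℝ) (g : Fin n → F) : ℝ :=
  ∑ r, ‖frz ψ (fun i => ¬ gen P θ i) (gfc P θ ψ a) g r‖ ^ 2

lemma WW_eq (ψ : AddChar F ℂ) (hψ : ψ.IsPrimitive) (a : (Fin n → F) → ℝ) (g : Fin n → F) :
    (Fintype.card F : ℝ) ^ n * WW P θ ψ a g =
      ∑ y, ‖fsum ψ (gfc P θ ψ a) (mix (fun i => ¬ gen P θ i) g y)‖ ^ 2 := by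
  simp only [fsum_mix]
  rw [fsum_sq ψ hψ]
  rfl

lemma sum_WW (ψ : AddChar F ℂ) (hψ : ψ.IsPrimitive) (a : (Fin n → F) → ℝ) :
    ∑ g, WW P θ ψ a g = ∑ g, ‖fsum ψ (gfc P θ ψ a) g‖ ^ 2 := by
  have hq : (0 : ℝ) < (Fintype.card F : ℝ) ^ n := pow_pos qpos n
  refine mul_left_cancel₀ hq.ne' ?_
  rw [Finset.mul_sum, Finset.sum_congr rfl fun g _ => WW_eq P θ ψ hψ a g,
    sum_mix (fun i => ¬ gen P θ i) (fun u => ‖fsum ψ (gfc P θ ψ a) u‖ ^ 2)]

lemma sum_WW_mix (ψ : AddChar F ℂ) (hψ : ψ.IsPrimitive) (a : (Fin n → F) → ℝ)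
    (β : Fin n → F) (g : Fin n → F) :
    ∑ y, WW P θ ψ a (mix (CC' P θ β) g y) =
      ∑ y, ‖fsum ψ (gfc P θ ψ a) (mix (CC' P θ β) g y)‖ ^ 2 := by
  have hq : (0 : ℝ) < (Fintype.card F : ℝ) ^ n := pow_pos qpos n
  refine mul_left_cancel₀ hq.ne' ?_
  rw [Finset.mul_sum, Finset.sum_congr rfl fun y _ => WW_eq P θ ψ hψ a _,
    ← sum_mix (fun i => ¬ gen P θ i)
      (fun u => ‖fsum ψ (gfc P θ ψ a) (mix (CC' P θ β) g u)‖ ^ 2)]
  refine Finset.sum_congr rfl fun y _ => Finset.sum_congr rfl fun z _ => ?_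
  congr 3
  funext i
  simp only [mix]
  by_cases h : CC' P θ β i
  · rw [if_pos h.1, if_pos h, if_pos h]
  · by_cases h2 : gen P θ i
    · rw [if_neg (not_not.2 h2), if_neg h, if_neg (not_not.2 h2)]
    · rw [if_pos h2, if_neg h, if_neg h, if_pos h2]

/-- **Fourth moment.** -/
lemma fourth (ψ : AddChar F ℂ) (hψ : ψ.IsPrimitive) (a : (Fin n → F) → ℝ) (h0 : ∀ f, 0 ≤ a f)
    (h1 : ∀ f, a f ≤ 1) (ha : ∀ g, ∑ A : Dual F G, a (g + P.ev A) ≤ 1) :
    ∑ g, ‖fsum ψ (gfc P θ ψ a) g‖ ^ 4 ≤ (16 * (Fintype.card F : ℝ) ^ 2) ^ D *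
      ((Fintype.card F : ℝ) ^ (D * D) * ((Fintype.card F : ℝ) ^ D / (Fintype.card G : ℝ))) *
        ∑ g, ‖fsum ψ (gfc P θ ψ a) g‖ ^ 2 := by
  set q : ℝ := (Fintype.card F : ℝ) with hq
  have hq0 : 0 < q := qpos
  have hN0 : (0 : ℝ) < (Fintype.card G : ℝ) := by exact_mod_cast Fintype.card_pos
  set M : ℝ := q ^ (D * D) * (q ^ D / (Fintype.card G : ℝ)) with hM
  have hM0 : 0 ≤ M := by positivity
  set c := gfc P θ ψ a with hc
  set B : Fin n → Prop := fun i => ¬ gen P θ i with hB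
  have hinj : ∀ g r, frz ψ B c g r ≠ 0 → Set.InjOn θ (Usp P θ r : Set G) ∧
      wt r ≤ D := by
    intro g r hr
    obtain ⟨b, hb1, hb2⟩ : ∃ b, mask (fun i => ¬ B i) b = r ∧ Good P θ b := by
      by_contra h
      apply hr
      refine Finset.sum_eq_zero fun b _ => ?_
      split_ifs with hb
      · rw [hc, gfc, if_neg (fun hg => h ⟨b, hb, hg⟩), zero_mul]
      · rfl
    have hm : mask (gen P θ) b = r := by
      rw [← hb1]
      funext i
      simp only [mask, hB, not_not]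
    constructor
    · have : Usp P θ r = Usp P θ b := Usp_congr P θ fun i hi => by
        rw [← hm, mask, if_pos hi]
      rw [this]
      exact hb2.2
    · rw [← hm]
      exact wt_le P θ hb2.2
  -- hypercontractivity in the generator coordinates
  have e1 : ∀ g, ∑ y, ‖fsum ψ c (mix B g y)‖ ^ 4 ≤
      q ^ n * (16 * q ^ 2) ^ D * (WW P θ ψ a g) ^ 2 := by
    intro g
    simp only [fsum_mix]
    refine hyper ψ hψ n D (frz ψ B c g) ?_
    intro r hr
    by_contra hne
    have := (hinj g r hne).2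
    omega
  have e2 : q ^ n * ∑ g, ‖fsum ψ c g‖ ^ 4 ≤
      q ^ n * ((16 * q ^ 2) ^ D * ∑ g, (WW P θ ψ a g) ^ 2) := by
    rw [← sum_mix B (fun u => ‖fsum ψ c u‖ ^ 4)]
    refine (Finset.sum_le_sum fun g _ => e1 g).trans (le_of_eq ?_)
    rw [← Finset.mul_sum]
    ring
  have e3 := le_of_mul_le_mul_left e2 (pow_pos hq0 n)
  -- the square of the weight
  have e4 : ∑ g, (WW P θ ψ a g) ^ 2 ≤ M * ∑ g, WW P θ ψ a g := by
    have h2 : ∑ g, (WW P θ ψ a g) ^ 2 =
        ∑ r, ∑ g, ‖frz ψ B c g r‖ ^ 2 * WW P θ ψ a g := by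
      rw [Finset.sum_comm]
      refine Finset.sum_congr rfl fun g _ => ?_
      rw [← Finset.sum_mul, sq]
      rfl
    have h3 : ∑ g, WW P θ ψ a g = ∑ r, ∑ g, ‖frz ψ B c g r‖ ^ 2 := by
      rw [Finset.sum_comm]
      rfl
    rw [h2, h3, Finset.mul_sum]
    refine Finset.sum_le_sum fun r _ => ?_
    by_cases hr : ∃ g, frz ψ B c g r ≠ 0
    swap
    · push Not at hr
      simp [hr]
    obtain ⟨g₀, hg₀⟩ := hr
    have hβ := (hinj g₀ r hg₀).1
    have hdep : ∀ g y, frz ψ B c (mix (CC' P θ r) g y) r = frz ψ B c g r := by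
      intro g y
      refine Finset.sum_congr rfl fun b _ => ?_
      by_cases hb1 : mask (fun i => ¬ B i) b = r
      · rw [if_pos hb1, if_pos hb1]
        by_cases hb2 : Good P θ b
        · congr 2
          refine Finset.sum_congr rfl fun i _ => ?_
          simp only [mask, mix]
          by_cases hi : B i
          · rw [if_pos hi]
            by_cases hbi : b i = 0
            · rw [hbi, zero_mul, zero_mul]
            · have hU : Usp P θ b = Usp P θ r := Usp_congr P θ fun j hj => by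
                rw [← hb1, mask, if_pos (not_not.2 hj)]
              have : CC' P θ r i := ⟨hi, by rw [← hU]; exact hb2.1 i hbi⟩
              rw [if_pos this]
          · rw [if_neg hi, zero_mul, zero_mul]
        · have : c b = 0 := by rw [hc, gfc, if_neg hb2]
          rw [this, zero_mul, zero_mul]
      · rw [if_neg hb1, if_neg hb1]
    refine le_of_mul_le_mul_left ?_ (pow_pos hq0 n)
    rw [← sum_mix (CC' P θ r) (fun g => ‖frz ψ B c g r‖ ^ 2 * WW P θ ψ a g)]
    calc ∑ g, ∑ y, ‖frz ψ B c (mix (CC' P θ r) g y) r‖ ^ 2 *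
          WW P θ ψ a (mix (CC' P θ r) g y)
        = ∑ g, ‖frz ψ B c g r‖ ^ 2 * ∑ y, WW P θ ψ a (mix (CC' P θ r) g y) := by
          refine Finset.sum_congr rfl fun g _ => ?_
          rw [Finset.mul_sum]
          exact Finset.sum_congr rfl fun y _ => by rw [hdep]
      _ ≤ ∑ g, ‖frz ψ B c g r‖ ^ 2 * (q ^ n * M) := by
          refine Finset.sum_le_sum fun g _ => mul_le_mul_of_nonneg_left ?_ (sq_nonneg _)
          rw [sum_WW_mix P θ ψ hψ a r g]
          exact second P θ ψ hψ a h0 h1 ha r hβ g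
      _ = q ^ n * (M * ∑ g, ‖frz ψ B c g r‖ ^ 2) := by
          rw [← Finset.sum_mul]
          ring
  rw [sum_WW P θ ψ hψ a] at e4
  calc ∑ g, ‖fsum ψ c g‖ ^ 4 ≤ (16 * q ^ 2) ^ D * ∑ g, (WW P θ ψ a g) ^ 2 := e3
    _ ≤ (16 * q ^ 2) ^ D * (M * ∑ g, ‖fsum ψ c g‖ ^ 2) :=
        mul_le_mul_of_nonneg_left e4 (by positivity)
    _ = _ := by ring

end

end Pool.Agent.H25.DTO
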