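import Pool.Agent.H76.DTO.Spectral

/-!
A hypercontractive inequality for global functions on a power of a finite field whose coordinates
are the points of a projective space.
-/

namespace Pool.Agent.H25.DTO

open Finset Module Pool.Agent.H76.DTO
open scoped Classical

noncomputable section

set_option linter.unusedSectionVars false

variable {F : Type} [Field F] [Fintype F] {n : ℕ}

/-- restriction of a vector to a set of coordinates -/
def mask (C : Fin n → Prop) (b : Fin n → F) : Fin n → F := fun i => if C i then b i else 0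

/-- the vector which is `g` on `C` and `y` off `C` -/
def mix (C : Fin n → Prop) (g y : Fin n → F) : Fin n → F := fun i => if C i then g i else y i

lemma sum_mix2 (C : Fin n → Prop) (Ψ : (Fin n → F) → (Fin n → F) → ℝ) :
    ∑ g, ∑ y, Ψ (mix C g y) (mix C y g) = ∑ g, ∑ y, Ψ g y := by
  have e : ((Fin n → F) × (Fin n → F)) ≃ ((Fin n → F) × (Fin n → F)) :=
    { toFun := fun p => (mix C p.1 p.2, mix C p.2 p.1)
      invFun := fun p => (mix C p.1 p.2, mix C p.2 p.1)
      left_inv := by
        rintro ⟨g, y⟩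
        ext i <;> simp only [mix] <;> split_ifs <;> rfl
      right_inv := by
        rintro ⟨g, y⟩
        ext i <;> simp only [mix] <;> split_ifs <;> rfl }
  have h1 : ∑ p : (Fin n → F) × (Fin n → F), Ψ (mix C p.1 p.2) (mix C p.2 p.1) =
      ∑ p : (Fin n → F) × (Fin n → F), Ψ p.1 p.2 := by
    refine Fintype.sum_bijective (fun p : (Fin n → F) × (Fin n → F) =>
      (mix C p.1 p.2, mix C p.2 p.1)) ?_ _ _ (fun p => rfl)
    refine Function.Involutive.bijective ?_
    rintro ⟨g, y⟩
    ext i <;> simp only [mix] <;> split_ifs <;> rfl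
  rw [Fintype.sum_prod_type, Fintype.sum_prod_type] at h1
  exact h1

lemma sum_mix (C : Fin n → Prop) (Φ : (Fin n → F) → ℝ) :
    ∑ g, ∑ y, Φ (mix C g y) = (Fintype.card F : ℝ) ^ n * ∑ g, Φ g := by
  rw [sum_mix2 C (fun g _ => Φ g)]
  simp only [Finset.sum_const, Finset.card_univ, nsmul_eq_mul]
  rw [← Finset.mul_sum, card_fun]

lemma dot_mix (C : Fin n → Prop) (b g y : Fin n → F) :
    dot b (mix C g y) = dot (mask C b) g + dot (mask (fun i => ¬ C i) b) y := by
  simp only [dot, ← Finset.sum_add_distrib]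
  refine Finset.sum_congr rfl fun i _ => ?_
  simp only [mix, mask]
  by_cases h : C i <;> simp [h]

/-- the Fourier coefficients after freezing the coordinates in `C` -/
def frz (ψ : AddChar F ℂ) (C : Fin n → Prop) (c : (Fin n → F) → ℂ) (g r : Fin n → F) : ℂ :=
  ∑ b, if mask (fun i => ¬ C i) b = r then c b * ψ (dot (mask C b) g) else 0

lemma fsum_mix (ψ : AddChar F ℂ) (C : Fin n → Prop) (c : (Fin n → F) → ℂ) (g y : Fin n → F) :
    fsum ψ c (mix C g y) = fsum ψ (frz ψ C c g) y := by
  simp only [fsum, frz, Finset.sum_mul]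
  rw [Finset.sum_comm]
  refine Finset.sum_congr rfl fun b _ => ?_
  rw [Finset.sum_eq_single (mask (fun i => ¬ C i) b)]
  · rw [if_pos rfl, mul_assoc, ← AddChar.map_add_eq_mul]
    congr 2
    exact dot_mix C b g y
  · intro r _ hr
    rw [if_neg (Ne.symm hr), zero_mul]
  · intro h
    exact absurd (Finset.mem_univ _) h

lemma sum_psi_dot' (ψ : AddChar F ℂ) (hψ : ψ.IsPrimitive) (b : Fin n → F) :
    ∑ f : Fin n → F, ψ (dot b f) = if b = 0 then (Fintype.card F : ℂ) ^ n else 0 := by
  rw [← sum_psi_dot ψ hψ b]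
  exact Finset.sum_congr rfl fun f _ => by rw [dot_comm]

/-- Parseval -/
lemma fsum_sq (ψ : AddChar F ℂ) (hψ : ψ.IsPrimitive) (c : (Fin n → F) → ℂ) :
    ∑ y, ‖fsum ψ c y‖ ^ 2 = (Fintype.card F : ℝ) ^ n * ∑ b, ‖c b‖ ^ 2 := by
  have h1 : ∀ y, ((‖fsum ψ c y‖ ^ 2 : ℝ) : ℂ) =
      ∑ b, ∑ b', c b * starRingEnd ℂ (c b') * ψ (dot (b - b') y) := by
    intro y
    have h2 : ((‖fsum ψ c y‖ ^ 2 : ℝ) : ℂ) = fsum ψ c y * starRingEnd ℂ (fsum ψ c y) := by
      rw [Complex.mul_conj, Complex.normSq_eq_norm_sq]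
    rw [h2, fsum, map_sum, Finset.sum_mul_sum]
    refine Finset.sum_congr rfl fun b _ => Finset.sum_congr rfl fun b' _ => ?_
    rw [map_mul, ← AddChar.map_neg_eq_conj]
    have h3 : dot (b - b') y = (∑ i, b i * y i) + -(∑ i, b' i * y i) := by
      simp only [dot, Pi.sub_apply, sub_mul, Finset.sum_sub_distrib]
      ring
    rw [h3, AddChar.map_add_eq_mul]
    ring
  have h4 : ((∑ y, ‖fsum ψ c y‖ ^ 2 : ℝ) : ℂ) =
      (((Fintype.card F : ℝ) ^ n * ∑ b, ‖c b‖ ^ 2 : ℝ) : ℂ) := by
    rw [Complex.ofReal_sum, Finset.sum_congr rfl fun y _ => h1 y, Finset.sum_comm]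
    rw [Complex.ofReal_mul, Complex.ofReal_sum, Finset.mul_sum]
    refine Finset.sum_congr rfl fun b _ => ?_
    rw [Finset.sum_comm, Finset.sum_eq_single b]
    · rw [← Finset.mul_sum, sum_psi_dot' ψ hψ, if_pos (sub_self b), Complex.mul_conj,
        Complex.normSq_eq_norm_sq]
      push_cast
      ring
    · intro b' _ hb'
      rw [← Finset.mul_sum, sum_psi_dot' ψ hψ, if_neg (fun h => hb' (sub_eq_zero.1 h).symm),
        mul_zero]
    · intro h
      exact absurd (Finset.mem_univ _) h
  exact_mod_cast h4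

/-- Fourier inversion -/
lemma fsum_fc (ψ : AddChar F ℂ) (hψ : ψ.IsPrimitive) (a : (Fin n → F) → ℝ) (y : Fin n → F) :
    fsum ψ (fc ψ a) y = (a y : ℂ) := by
  have hq : (Fintype.card F : ℂ) ^ n ≠ 0 := by
    have := (qpos (F := F)).ne'
    exact pow_ne_zero _ (by exact_mod_cast this)
  have h1 : fsum ψ (fc ψ a) y =
      (∑ f, (a f : ℂ) * ∑ b : Fin n → F, ψ (dot b (y - f))) / (Fintype.card F : ℂ) ^ n := by
    simp only [fsum, fc, div_mul_eq_mul_div, Finset.sum_mul, Finset.mul_sum]
    rw [← Finset.sum_div, Finset.sum_comm]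
    congr 1
    refine Finset.sum_congr rfl fun f _ => Finset.sum_congr rfl fun b _ => ?_
    rw [mul_assoc, ← AddChar.map_add_eq_mul]
    congr 2
    rw [dot_sub]
    simp only [dot]
    ring
  rw [h1, Finset.sum_eq_single y]
  · rw [sum_psi_dot ψ hψ, if_pos (sub_self y), mul_div_assoc, div_self hq, mul_one]
  · intro f _ hf
    rw [sum_psi_dot ψ hψ, if_neg (fun h => hf (sub_eq_zero.1 h).symm), mul_zero]
  · intro h
    exact absurd (Finset.mem_univ _) h

variable {G : Type} [AddCommGroup G] [Module F G] [Fintype G] (P : Frame F G n)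

/-- **Globalness**: fixing the coordinates in a subspace of dimension `m` increases the mean by at
most a factor `q ^ m`. -/
lemma glob_bound (a : (Fin n → F) → ℝ) (h0 : ∀ f, 0 ≤ a f)
    (ha : ∀ g, ∑ A : Dual F G, a (g + P.ev A) ≤ 1) (U : Submodule F G) (C : Fin n → Prop)
    (hC : ∀ i, C i → P.pt i ∈ U) (g : Fin n → F) :
    ∑ y, a (mix C g y) ≤ (Fintype.card F : ℝ) ^ n *
      ((Fintype.card F : ℝ) ^ finrank F U / (Fintype.card G : ℝ)) := by
  set q : ℝ := (Fintype.card F : ℝ) with hq
  have hq0 : 0 < q := qpos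
  have hN0 : (0 : ℝ) < (Fintype.card G : ℝ) := by exact_mod_cast Fintype.card_pos
  have hc : (Fintype.card U.dualAnnihilator : ℝ) * q ^ finrank F U = (Fintype.card G : ℝ) := by
    have h1 : Fintype.card U * Fintype.card U.dualAnnihilator = Fintype.card G := by
      rw [Module.card_eq_pow_finrank (K := F) (V := U),
        Module.card_eq_pow_finrank (K := F) (V := U.dualAnnihilator),
        Module.card_eq_pow_finrank (K := F) (V := G), ← pow_add,
        Subspace.finrank_add_finrank_dualAnnihilator_eq]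
    rw [Module.card_eq_pow_finrank (K := F) (V := U)] at h1
    rw [hq, ← h1]
    push_cast
    ring
  have h1 : ∀ A : U.dualAnnihilator, ∑ y, a (mix C g y) = ∑ y, a (mix C g y + P.ev A.1) := by
    intro A
    rw [← Equiv.sum_comp (Equiv.addRight (P.ev A.1)) (fun y => a (mix C g y))]
    refine Finset.sum_congr rfl fun y _ => ?_
    congr 1
    ext i
    simp only [Equiv.coe_addRight, mix, Pi.add_apply]
    by_cases h : C i
    · have h2 : P.ev A.1 i = 0 := by
        rw [P.ev_apply]
        exact (Submodule.mem_dualAnnihilator _).1 A.2 _ (hC i h)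
      rw [if_pos h, if_pos h, h2, add_zero]
    · rw [if_neg h, if_neg h]
  have h2 : (Fintype.card U.dualAnnihilator : ℝ) * ∑ y, a (mix C g y) ≤ q ^ n := by
    calc (Fintype.card U.dualAnnihilator : ℝ) * ∑ y, a (mix C g y)
        = ∑ A : U.dualAnnihilator, ∑ y, a (mix C g y + P.ev A.1) := by
          rw [← Finset.sum_congr rfl fun A _ => h1 A, Finset.sum_const, Finset.card_univ,
            nsmul_eq_mul]
      _ = ∑ y, ∑ A : U.dualAnnihilator, a (mix C g y + P.ev A.1) := Finset.sum_comm
      _ ≤ ∑ _y : Fin n → F, (1 : ℝ) := by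
          refine Finset.sum_le_sum fun y _ => le_trans ?_ (ha (mix C g y))
          rw [← Finset.sum_image (f := fun A : Dual F G => a (mix C g y + P.ev A))
            (g := fun A : U.dualAnnihilator => A.1) (s := Finset.univ)
            (fun A _ B _ h => Subtype.ext h)]
          exact Finset.sum_le_sum_of_subset_of_nonneg (Finset.subset_univ _)
            (fun A _ _ => h0 _)
      _ = q ^ n := by
          rw [Finset.sum_const, Finset.card_univ, nsmul_eq_mul, mul_one, card_fun]
  have hA0 : (0 : ℝ) < (Fintype.card U.dualAnnihilator : ℝ) := by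
    exact_mod_cast Fintype.card_pos
  rw [← hc, mul_comm (Fintype.card U.dualAnnihilator : ℝ), ← div_div, div_self
    (pow_pos hq0 _).ne', mul_one_div, le_div_iff₀ hA0, mul_comm]
  exact h2

end

end Pool.Agent.H25.DTO
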