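import Pool.Agent.H76.DTO.SharpDefs

/-!
Padding: from `p`-to-1 instances to `p * m`-to-1 instances by duplicating the right labels.
-/

namespace Pool.Agent.H25.DTO

open Finset Pool.Agent.H76.DTO
open scoped RealInnerProductSpace Classical

noncomputable section

variable {V W : Type} {p d R N : ℕ}

/-- the duplicated right labels -/
def dup (m : ℕ) (hd : d = p * m) (R : ℕ) : Fin (d * R) ≃ Fin (p * R) × Fin m :=
  Fintype.equivOfCardEq (by
    rw [Fintype.card_prod, Fintype.card_fin, Fintype.card_fin, Fintype.card_fin, hd]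
    ring)

/-- the padded instance -/
def pad (m : ℕ) (hd : d = p * m) (Φ : LabelCover V W p R) : LabelCover V W d R where
  E := Φ.E
  π e b := Φ.π e (dup m hd R b).1
  dto1 := by
    intro e he a
    have h1 := Φ.dto1 e he a
    calc (Finset.univ.filter (fun b => Φ.π e (dup m hd R b).1 = a)).card
        = (((Finset.univ.filter (fun c => Φ.π e c = a)) ×ˢ (Finset.univ : Finset (Fin m)))).card := by
          refine Finset.card_bij (fun b _ => dup m hd R b) ?_ ?_ ?_
          · intro b hb
            exact Finset.mem_product.2 ⟨Finset.mem_filter.2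
              ⟨Finset.mem_univ _, (Finset.mem_filter.1 hb).2⟩, Finset.mem_univ _⟩
          · intro b _ b' _ h
            exact (dup m hd R).injective h
          · intro c hc
            refine ⟨(dup m hd R).symm c, Finset.mem_filter.2 ⟨Finset.mem_univ _, ?_⟩, by simp⟩
            rw [Equiv.apply_symm_apply]
            exact (Finset.mem_filter.1 (Finset.mem_product.1 hc).1).2
      _ ≤ p * m := by
          rw [Finset.card_product, Finset.card_univ, Fintype.card_fin]
          exact Nat.mul_le_mul_right _ h1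
      _ = d := hd.symm

lemma pad_value (m : ℕ) (hm : 0 < m) (hd : d = p * m) (Φ : LabelCover V W p R)
    (hR : 0 < R) (hp : 0 < p) : (pad m hd Φ).value ≤ Φ.value := by
  have : Nonempty (Fin R) := ⟨⟨0, hR⟩⟩
  have : Nonempty (Fin (d * R)) := ⟨⟨0, Nat.mul_pos (by rw [hd]; positivity) hR⟩⟩
  refine ciSup_le fun fg => ?_
  exact le_ciSup (f := fun fg : (V → Fin R) × (W → Fin (p * R)) => Φ.frac fg.1 fg.2)
    (⟨1, by
      rintro _ ⟨fg, rfl⟩
      simp only [LabelCover.frac]
      refine div_le_one_of_le₀ ?_ (Nat.cast_nonneg _)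
      exact_mod_cast Finset.card_filter_le _ _⟩) (fg.1, fun w => (dup m hd R (fg.2 w)).1)

lemma sum_dup (m : ℕ) (hm : 0 < m) (hd : d = p * m) (f : Fin (p * R) → ℝ) :
    ∑ b, (if (dup m hd R b).2 = ⟨0, hm⟩ then f (dup m hd R b).1 else 0) = ∑ c, f c := by
  rw [Equiv.sum_comp (dup m hd R) (fun c => if c.2 = ⟨0, hm⟩ then f c.1 else 0),
    Fintype.sum_prod_type]
  refine Finset.sum_congr rfl fun c _ => ?_
  rw [Finset.sum_ite_eq']
  simp

/-- the padded solution -/
def padSol (m : ℕ) (hm : 0 < m) (hd : d = p * m) (Φ : LabelCover V W p R)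
    (S : PerfectSolution Φ N) : PerfectSolution (pad m hd Φ) N where
  x := S.x
  y w b := if (dup m hd R b).2 = ⟨0, hm⟩ then S.y w (dup m hd R b).1 else 0
  orth_x := S.orth_x
  orth_y := by
    intro w b b' h
    split_ifs with h1 h2
    · refine S.orth_y w _ _ ?_
      intro h3
      apply h
      apply (dup m hd R).injective
      exact Prod.ext h3 (h1.trans h2.symm)
    · rw [inner_zero_right]
    · rw [inner_zero_left]
    · rw [inner_zero_left]
  norm_x := S.norm_x
  norm_y := by
    intro w
    rw [← S.norm_y w, ← sum_dup (R := R) m hm hd (fun c => ‖S.y w c‖ ^ 2)]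
    refine Finset.sum_congr rfl fun b _ => ?_
    split_ifs <;> simp
  perfect := by
    intro e he
    rw [← S.perfect e he, ← sum_dup (R := R) m hm hd (fun c => ⟪S.x e.1 (Φ.π e c), S.y e.2 c⟫)]
    refine Finset.sum_congr rfl fun b _ => ?_
    simp only [pad]
    split_ifs
    · rfl
    · rw [inner_zero_right]

lemma padSol_common (m : ℕ) (hm : 0 < m) (hd : d = p * m) (Φ : LabelCover V W p R)
    (S : PerfectSolution Φ N) (hS : S.CommonSum) : (padSol m hm hd Φ S).CommonSum := by
  obtain ⟨z, hz, hx, hy⟩ := hS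
  refine ⟨z, hz, hx, fun w => ?_⟩
  rw [← hy w]
  have h1 : ∑ b, (if (dup m hd R b).2 = ⟨0, hm⟩ then S.y w (dup m hd R b).1 else 0) =
      ∑ c, S.y w c := by
    rw [Equiv.sum_comp (dup m hd R) (fun c => if c.2 = ⟨0, hm⟩ then S.y w c.1 else 0),
      Fintype.sum_prod_type]
    refine Finset.sum_congr rfl fun c _ => ?_
    rw [Finset.sum_ite_eq']
    simp
  exact h1

end

end Pool.Agent.H25.DTO
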