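import Pool.Agent.H25.DTO.Fourth

/-!
The Fourier weight of a global function on the vectors whose support spans a small subspace.
-/

namespace Pool.Agent.H25.DTO

open Finset Module Pool.Agent.H76.DTO
open scoped Classical

noncomputable section

set_option linter.unusedSectionVars false

variable {F : Type} [Field F] [Fintype F] {n : ℕ}

/-- duality -/
lemma dual_le (ψ : AddChar F ℂ) (hψ : ψ.IsPrimitive) (a : (Fin n → F) → ℝ)
    (h0 : ∀ f, 0 ≤ a f) (h1 : ∀ f, a f ≤ 1) (Q : (Fin n → F) → Prop) :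
    ((Fintype.card F : ℝ) ^ n * ∑ b, (if Q b then ‖fc ψ a b‖ ^ 2 else 0)) ^ 4 ≤
      (∑ f, a f) ^ 3 * ∑ f, ‖fsum ψ (fun b => if Q b then fc ψ a b else 0) f‖ ^ 4 := by
  set q : ℝ := (Fintype.card F : ℝ) with hq
  have hq0 : 0 < q := qpos
  set c : (Fin n → F) → ℂ := fun b => if Q b then fc ψ a b else 0 with hc
  set X : ℝ := ∑ b, if Q b then ‖fc ψ a b‖ ^ 2 else 0 with hX
  have hX0 : 0 ≤ X := Finset.sum_nonneg fun b _ => by split_ifs <;> positivity
  have h2 : ((q ^ n * X : ℝ) : ℂ) = ∑ f, (a f : ℂ) * starRingEnd ℂ (fsum ψ c f) := by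
    have e1 : ((X : ℝ) : ℂ) = ∑ b, fc ψ a b * starRingEnd ℂ (c b) := by
      rw [hX, Complex.ofReal_sum]
      refine Finset.sum_congr rfl fun b _ => ?_
      rw [hc]
      simp only
      split_ifs with h
      · rw [Complex.mul_conj, Complex.normSq_eq_norm_sq]
      · simp
    rw [Complex.ofReal_mul, e1, Finset.mul_sum]
    have e2 : ∀ b, ((q ^ n : ℝ) : ℂ) * (fc ψ a b * starRingEnd ℂ (c b)) =
        ∑ f, (a f : ℂ) * (starRingEnd ℂ (c b) * ψ (- dot b f)) := by
      intro b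
      have hqn : ((q ^ n : ℝ) : ℂ) ≠ 0 := by
        exact_mod_cast (pow_pos hq0 n).ne'
      rw [fc]
      have : ((Fintype.card F : ℂ) ^ n) = ((q ^ n : ℝ) : ℂ) := by rw [hq]; push_cast; rfl
      rw [this, Finset.sum_div, Finset.sum_mul, Finset.mul_sum]
      refine Finset.sum_congr rfl fun f _ => ?_
      field_simp
    rw [Finset.sum_congr rfl fun b _ => e2 b, Finset.sum_comm]
    refine Finset.sum_congr rfl fun f _ => ?_
    rw [fsum, map_sum, Finset.mul_sum]
    refine Finset.sum_congr rfl fun b _ => ?_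
    rw [map_mul, ← AddChar.map_neg_eq_conj]
    rfl
  have h3 : q ^ n * X ≤ ∑ f, a f * ‖fsum ψ c f‖ := by
    have e1 : q ^ n * X = ‖((q ^ n * X : ℝ) : ℂ)‖ := by
      rw [Complex.norm_real, Real.norm_eq_abs, abs_of_nonneg (by positivity)]
    rw [e1, h2]
    refine (norm_sum_le _ _).trans (le_of_eq ?_)
    refine Finset.sum_congr rfl fun f _ => ?_
    rw [norm_mul, Complex.norm_real, Real.norm_eq_abs, abs_of_nonneg (h0 f), Complex.norm_conj]
  have hA0 : 0 ≤ ∑ f, a f := Finset.sum_nonneg fun f _ => h0 f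
  have hcs : ∀ g : (Fin n → F) → ℝ, (∑ f, a f * g f) ^ 2 ≤ (∑ f, a f) * ∑ f, a f * g f ^ 2 := by
    intro g
    have e1 := Finset.sum_mul_sq_le_sq_mul_sq Finset.univ (fun f => √(a f))
      (fun f => √(a f) * g f)
    have e2 : ∀ f, √(a f) * (√(a f) * g f) = a f * g f := fun f => by
      rw [← mul_assoc, Real.mul_self_sqrt (h0 f)]
    have e3 : ∀ f, √(a f) ^ 2 = a f := fun f => Real.sq_sqrt (h0 f)
    have e4 : ∀ f, (√(a f) * g f) ^ 2 = a f * g f ^ 2 := fun f => by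
      rw [mul_pow, e3]
    simp only [e2, e3, e4] at e1
    exact e1
  have h4 : (∑ f, a f * ‖fsum ψ c f‖) ^ 4 ≤ (∑ f, a f) ^ 3 * ∑ f, ‖fsum ψ c f‖ ^ 4 := by
    have e1 := hcs (fun f => ‖fsum ψ c f‖)
    have e2 := hcs (fun f => ‖fsum ψ c f‖ ^ 2)
    have e3 : ∑ f, a f * (‖fsum ψ c f‖ ^ 2) ^ 2 ≤ ∑ f, ‖fsum ψ c f‖ ^ 4 := by
      refine Finset.sum_le_sum fun f _ => ?_
      have : (‖fsum ψ c f‖ ^ 2) ^ 2 = ‖fsum ψ c f‖ ^ 4 := by ring
      rw [this]
      calc a f * ‖fsum ψ c f‖ ^ 4 ≤ 1 * ‖fsum ψ c f‖ ^ 4 :=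
            mul_le_mul_of_nonneg_right (h1 f) (by positivity)
        _ = _ := one_mul _
    calc (∑ f, a f * ‖fsum ψ c f‖) ^ 4 = ((∑ f, a f * ‖fsum ψ c f‖) ^ 2) ^ 2 := by ring
      _ ≤ ((∑ f, a f) * ∑ f, a f * ‖fsum ψ c f‖ ^ 2) ^ 2 :=
          pow_le_pow_left₀ (sq_nonneg _) e1 2
      _ = (∑ f, a f) ^ 2 * (∑ f, a f * ‖fsum ψ c f‖ ^ 2) ^ 2 := by ring
      _ ≤ (∑ f, a f) ^ 2 * ((∑ f, a f) * ∑ f, a f * (‖fsum ψ c f‖ ^ 2) ^ 2) :=
          mul_le_mul_of_nonneg_left e2 (sq_nonneg _)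
      _ = (∑ f, a f) ^ 3 * ∑ f, a f * (‖fsum ψ c f‖ ^ 2) ^ 2 := by ring
      _ ≤ (∑ f, a f) ^ 3 * ∑ f, ‖fsum ψ c f‖ ^ 4 :=
          mul_le_mul_of_nonneg_left e3 (by positivity)
  exact (pow_le_pow_left₀ (by positivity) h3 4).trans h4

variable {G : Type} [AddCommGroup G] [Module F G] [Fintype G] (P : Frame F G n)
variable {D : ℕ}

lemma weight_theta (θ : G →ₗ[F] (Fin D → F)) (ψ : AddChar F ℂ) (hψ : ψ.IsPrimitive)
    (a : (Fin n → F) → ℝ) (h0 : ∀ f, 0 ≤ a f) (h1 : ∀ f, a f ≤ 1)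
    (ha : ∀ g, ∑ A : Dual F G, a (g + P.ev A) ≤ 1)
    (hm : ∑ f, a f = (Fintype.card F : ℝ) ^ n / (Fintype.card G : ℝ)) :
    (∑ b, if Good P θ b then ‖fc ψ a b‖ ^ 2 else 0) ^ 3 ≤
      (16 * (Fintype.card F : ℝ) ^ 2) ^ D *
        ((Fintype.card F : ℝ) ^ (D * D) * (Fintype.card F : ℝ) ^ D) / (Fintype.card G : ℝ) ^ 4 := by
  set q : ℝ := (Fintype.card F : ℝ) with hq
  have hq0 : 0 < q := qpos
  set N : ℝ := (Fintype.card G : ℝ) with hN
  have hN0 : (0 : ℝ) < N := by rw [hN]; exact_mod_cast Fintype.card_pos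
  set X : ℝ := ∑ b, if Good P θ b then ‖fc ψ a b‖ ^ 2 else 0 with hX
  have hX0 : 0 ≤ X := Finset.sum_nonneg fun b _ => by split_ifs <;> positivity
  have e1 := dual_le ψ hψ a h0 h1 (fun b => Good P θ b)
  have e2 := fourth P θ ψ hψ a h0 h1 ha
  have e3 : ∑ g, ‖fsum ψ (gfc P θ ψ a) g‖ ^ 2 = q ^ n * X := by
    rw [fsum_sq ψ hψ]
    congr 1
    refine Finset.sum_congr rfl fun b _ => ?_
    rw [gfc]
    split_ifs <;> simp
  rw [e3] at e2
  rw [← hX, ← hq, hm] at e1
  have e4 : (q ^ n * X) ^ 4 ≤ (q ^ n / N) ^ 3 *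
      ((16 * q ^ 2) ^ D * (q ^ (D * D) * (q ^ D / N)) * (q ^ n * X)) :=
    e1.trans (mul_le_mul_of_nonneg_left e2 (by positivity))
  rcases hX0.eq_or_lt with h | h
  · rw [← h]
    simp only [ne_eq, OfNat.ofNat_ne_zero, not_false_eq_true, zero_pow]
    positivity
  · have h5 : (q ^ n) ^ 4 * X * X ^ 3 ≤ (q ^ n) ^ 4 * X *
        ((16 * q ^ 2) ^ D * (q ^ (D * D) * q ^ D) / N ^ 4) := by
      calc (q ^ n) ^ 4 * X * X ^ 3 = (q ^ n * X) ^ 4 := by ring
        _ ≤ _ := e4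
        _ = _ := by field_simp
    exact le_of_mul_le_mul_left h5 (by positivity)

instance homFintype : Fintype (G →ₗ[F] (Fin D → F)) :=
  Fintype.ofInjective (fun S => (S : G → Fin D → F)) DFunLike.coe_injective

omit [Fintype F] [Fintype G] in
lemma exists_hom (v : Fin D → G) (hv : LinearIndependent F v) (w : Fin D → Fin D → F) :
    ∃ θ : G →ₗ[F] (Fin D → F), ∀ j, θ (v j) = w j := by
  obtain ⟨θ, hθ⟩ := ((Basis.span hv).constr F w).exists_extend
  refine ⟨θ, fun j => ?_⟩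
  have h1 := congrArg (fun f => f (Basis.span hv j)) hθ
  simp only [LinearMap.comp_apply, Submodule.subtype_apply, Basis.constr_basis] at h1
  rw [← h1]
  congr 1
  rw [Basis.coe_span_apply]

lemma count_hom (v : Fin D → G) (hv : LinearIndependent F v) :
    Fintype.card (G →ₗ[F] (Fin D → F)) ≤ Fintype.card F ^ (D * D) *
      (Finset.univ.filter (fun θ : G →ₗ[F] (Fin D → F) =>
        ∀ j, θ (v j) = Pi.single j 1)).card := by
  set s := (Finset.univ.filter (fun θ : G →ₗ[F] (Fin D → F) =>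
        ∀ j, θ (v j) = Pi.single j 1)) with hs
  obtain ⟨θe, hθe⟩ := exists_hom v hv (fun j => Pi.single j 1)
  have h1 := Finset.card_le_mul_card_image (s := (Finset.univ : Finset (G →ₗ[F] (Fin D → F))))
    (f := fun θ => fun j => θ (v j)) s.card (by
      intro w _
      obtain ⟨θw, hθw⟩ := exists_hom v hv w
      refine Finset.card_le_card_of_injOn (fun θ => θ - θw + θe) ?_ ?_
      · intro θ hθ
        have hθ' := (Finset.mem_filter.1 hθ).2
        rw [hs, Finset.mem_coe, Finset.mem_filter]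
        refine ⟨Finset.mem_univ _, fun j => ?_⟩
        have h2 := congrFun hθ' j
        simp only [LinearMap.add_apply, LinearMap.sub_apply] at h2 ⊢
        rw [h2, hθw, hθe, sub_self, zero_add]
      · intro θ _ θ' _ h
        simpa using h)
  rw [Finset.card_univ] at h1
  refine h1.trans ?_
  rw [mul_comm]
  refine Nat.mul_le_mul_right _ ((Finset.card_le_univ _).trans (le_of_eq ?_))
  rw [Fintype.card_fun, Fintype.card_fun, Fintype.card_fin, ← pow_mul]

/-- the span of the support -/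
def spn (b : Fin n → F) : Submodule F G := Submodule.span F (P.pt '' {i | b i ≠ 0})

lemma good_of (θ : G →ₗ[F] (Fin D → F)) (b : Fin n → F) (v : Fin D → G)
    (hvm : ∀ j, v j ∈ P.pt '' {i | b i ≠ 0})
    (hsp : Submodule.span F (Set.range v) = spn P b)
    (hθ : ∀ j, θ (v j) = Pi.single j 1) : Good P θ b := by
  have hU : Usp P θ b = spn P b := by
    apply le_antisymm
    · refine Submodule.span_mono ?_
      rintro _ ⟨i, ⟨_, hi⟩, rfl⟩
      exact ⟨i, hi, rfl⟩
    · rw [← hsp, Submodule.span_le]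
      rintro _ ⟨j, rfl⟩
      obtain ⟨i, hi, hij⟩ := hvm j
      have h1 := hθ j
      rw [← hij] at h1 ⊢
      exact gen_mem P θ ⟨j, h1⟩ hi
  refine ⟨fun i hi => ?_, ?_⟩
  · rw [hU]
    exact Submodule.subset_span ⟨i, hi, rfl⟩
  · rw [hU, ← hsp]
    have h2 : ∀ c : Fin D → F, θ (∑ j, c j • v j) = c := by
      intro c
      rw [map_sum]
      simp only [map_smul, hθ]
      funext j
      rw [Finset.sum_apply]
      simp [Pi.single_apply]
    intro x hx y hy hxy
    obtain ⟨c, rfl⟩ := (Submodule.mem_span_range_iff_exists_fun F).1 hx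
    obtain ⟨c', rfl⟩ := (Submodule.mem_span_range_iff_exists_fun F).1 hy
    rw [h2, h2] at hxy
    rw [hxy]

lemma count_good (b : Fin n → F) (hb : finrank F (spn P b) = D) :
    Fintype.card (G →ₗ[F] (Fin D → F)) ≤ Fintype.card F ^ (D * D) *
      (Finset.univ.filter (fun θ : G →ₗ[F] (Fin D → F) => Good P θ b)).card := by
  have h := Submodule.exists_fun_fin_finrank_span_eq F (P.pt '' {i | b i ≠ 0})
  rw [show finrank F (Submodule.span F (P.pt '' {i | b i ≠ 0})) = D from hb] at h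
  obtain ⟨v, hv1, hv2, hv3⟩ := h
  refine (count_hom v hv3).trans (Nat.mul_le_mul_left _ (Finset.card_le_card ?_))
  intro θ hθ
  rw [Finset.mem_filter] at hθ ⊢
  exact ⟨hθ.1, good_of P θ b v hv1 hv2 hθ.2⟩

/-- **The weight on the vectors whose support spans a subspace of dimension `D`.** -/
lemma weight_dim (D : ℕ) (w : (Fin n → F) → ℝ) (hw : ∀ b, 0 ≤ w b) (M : ℝ)
    (hM : ∀ θ : G →ₗ[F] (Fin D → F), (∑ b, if Good P θ b then w b else 0) ≤ M) :
    (∑ b, if finrank F (spn P b) = D then w b else 0) ≤ (Fintype.card F : ℝ) ^ (D * D) * M := by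
  set H : ℝ := (Fintype.card (G →ₗ[F] (Fin D → F)) : ℝ) with hH
  have hH0 : 0 < H := by rw [hH]; exact_mod_cast Fintype.card_pos
  have h1 : ∑ θ : G →ₗ[F] (Fin D → F), ∑ b, (if Good P θ b then w b else 0) ≤ H * M := by
    refine (Finset.sum_le_sum fun θ _ => hM θ).trans (le_of_eq ?_)
    rw [Finset.sum_const, Finset.card_univ, nsmul_eq_mul]
  have h2 : H * (∑ b, if finrank F (spn P b) = D then w b else 0) ≤
      (Fintype.card F : ℝ) ^ (D * D) *
        ∑ θ : G →ₗ[F] (Fin D → F), ∑ b, (if Good P θ b then w b else 0) := by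
    rw [Finset.sum_comm, Finset.mul_sum, Finset.mul_sum]
    refine Finset.sum_le_sum fun b _ => ?_
    rw [← Finset.sum_filter, Finset.sum_const, nsmul_eq_mul, ← mul_assoc]
    split_ifs with hb
    · refine mul_le_mul_of_nonneg_right ?_ (hw b)
      have := count_good P b hb
      rw [hH]
      exact_mod_cast this
    · rw [mul_zero]
      have := hw b
      positivity
  refine le_of_mul_le_mul_left ?_ hH0
  calc H * (∑ b, if finrank F (spn P b) = D then w b else 0)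
      ≤ _ := h2
    _ ≤ (Fintype.card F : ℝ) ^ (D * D) * (H * M) :=
        mul_le_mul_of_nonneg_left h1 (by positivity)
    _ = _ := by ring

end

end Pool.Agent.H25.DTO
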